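import Mathlib
import Pool.Agent.Helper256.KM.Mertens

set_option autoImplicit false

namespace Pool.Agent.U261.PL

open Finset

/-- `n ^ α` -/
noncomputable def fa (α : ℝ) : ArithmeticFunction ℝ :=
  ⟨fun n => if n = 0 then 0 else (n : ℝ) ^ α, if_pos rfl⟩

lemma fa_apply (α : ℝ) {n : ℕ} (hn : n ≠ 0) : fa α n = (n : ℝ) ^ α := if_neg hn

lemma fa_mult (α : ℝ) : (fa α).IsMultiplicative := by
  refine ArithmeticFunction.IsMultiplicative.iff_ne_zero.2 ⟨?_, ?_⟩
  · rw [fa_apply α one_ne_zero]; simp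
  · intro m n hm hn _
    rw [fa_apply α hm, fa_apply α hn, fa_apply α (mul_ne_zero hm hn), Nat.cast_mul,
      Real.mul_rpow (Nat.cast_nonneg _) (Nat.cast_nonneg _)]

/-- its Möbius transform -/
noncomputable def ha (α : ℝ) : ArithmeticFunction ℝ :=
  ((ArithmeticFunction.moebius : ArithmeticFunction ℤ) : ArithmeticFunction ℝ) * fa α

lemma ha_mult (α : ℝ) : (ha α).IsMultiplicative :=
  (ArithmeticFunction.isMultiplicative_moebius.intCast).mul (fa_mult α)

lemma ha_sum (α : ℝ) {m : ℕ} (hm : m ≠ 0) : ∑ d ∈ m.divisors, ha α d = (m : ℝ) ^ α := by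
  rw [← fa_apply α hm, ← ArithmeticFunction.coe_zeta_mul_apply]
  unfold ha
  rw [← mul_assoc, ArithmeticFunction.coe_zeta_mul_coe_moebius, one_mul]

lemma ha_pow (α : ℝ) {p : ℕ} (hp : p.Prime) (k : ℕ) :
    ha α (p ^ (k + 1)) = ((p : ℝ) ^ α) ^ k * ((p : ℝ) ^ α - 1) := by
  have hp0 : p ≠ 0 := hp.ne_zero
  have h1 := ha_sum α (pow_ne_zero (k + 1) hp0)
  have h2 := ha_sum α (pow_ne_zero k hp0)
  rw [Nat.sum_divisors_prime_pow hp] at h1 h2
  rw [Finset.sum_range_succ, h2] at h1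
  have e : ∀ j : ℕ, ((p ^ j : ℕ) : ℝ) ^ α = ((p : ℝ) ^ α) ^ j := by
    intro j
    rw [Nat.cast_pow, ← Real.rpow_natCast, ← Real.rpow_mul (Nat.cast_nonneg _), mul_comm,
      Real.rpow_mul (Nat.cast_nonneg _), Real.rpow_natCast]
  rw [e, e] at h1
  rw [pow_succ ((p : ℝ) ^ α) k] at h1
  linarith

lemma ha_nonneg {α : ℝ} (hα : 0 ≤ α) (n : ℕ) : 0 ≤ ha α n := by
  by_cases hn : n = 0
  · rw [hn, ArithmeticFunction.map_zero]
  rw [(ha_mult α).multiplicative_factorization _ hn]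
  refine Finset.prod_nonneg fun p hp => ?_
  have hpp : p.Prime := Nat.prime_of_mem_primeFactors hp
  have h1 : 1 ≤ (p : ℝ) ^ α := Real.one_le_rpow (by exact_mod_cast hpp.one_lt.le) hα
  obtain ⟨k, hk⟩ : ∃ k, n.factorization p = k + 1 :=
    ⟨n.factorization p - 1, by
      have : n.factorization p ≠ 0 := Finsupp.mem_support_iff.mp hp
      omega⟩
  rw [hk]
  show 0 ≤ ha α (p ^ (k + 1))
  rw [ha_pow α hpp]
  exact mul_nonneg (by positivity) (by linarith)

/-- `h / φ` -/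
noncomputable def ga (α : ℝ) (n : ℕ) : ℝ := ha α n / (Nat.totient n : ℝ)

lemma ga_one (α : ℝ) : ga α 1 = 1 := by
  unfold ga
  rw [(ha_mult α).map_one]; simp

lemma ga_mul (α : ℝ) {m n : ℕ} (h : Nat.Coprime m n) : ga α (m * n) = ga α m * ga α n := by
  unfold ga
  rw [(ha_mult α).map_mul_of_coprime h, Nat.totient_mul h, Nat.cast_mul]
  exact mul_div_mul_comm _ _ _ _

lemma ga_nonneg {α : ℝ} (hα : 0 ≤ α) (n : ℕ) : 0 ≤ ga α n :=
  div_nonneg (ha_nonneg hα n) (Nat.cast_nonneg _)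

lemma ga_pow (α : ℝ) {p : ℕ} (hp : p.Prime) (k : ℕ) :
    ga α (p ^ (k + 1)) = ((p : ℝ) ^ α - 1) / ((p : ℝ) - 1) * ((p : ℝ) ^ α / p) ^ k := by
  unfold ga
  have hp1 : (1 : ℝ) < p := by exact_mod_cast hp.one_lt
  have hp0 : (p : ℝ) ≠ 0 := by linarith
  have hp2 : (p : ℝ) - 1 ≠ 0 := by linarith
  rw [ha_pow α hp, Nat.totient_prime_pow_succ hp, Nat.cast_mul, Nat.cast_pow,
    Nat.cast_sub hp.one_lt.le, Nat.cast_one, div_pow]
  field_simp

lemma x_le {α : ℝ} (hα2 : α ≤ 1 / 2) {p : ℕ} (hp : p.Prime) : (p : ℝ) ^ α / p ≤ 3 / 4 := by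
  have hp2 : (2 : ℝ) ≤ p := by exact_mod_cast hp.two_le
  have hp0 : (0 : ℝ) < p := by linarith
  have h1 : (p : ℝ) ^ α ≤ (p : ℝ) ^ (1 / 2 : ℝ) := Real.rpow_le_rpow_of_exponent_le (by linarith) hα2
  rw [← Real.sqrt_eq_rpow] at h1
  have h2 : Real.sqrt p ≤ 3 / 4 * p := by
    rw [Real.sqrt_le_left (by linarith)]
    nlinarith
  rw [div_le_iff₀ hp0]
  linarith

lemma ga_summable {α : ℝ} (hα : 0 ≤ α) (hα2 : α ≤ 1 / 2) {p : ℕ} (hp : p.Prime) :
    Summable (fun n : ℕ => ‖ga α (p ^ n)‖) := by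
  rw [← summable_nat_add_iff 1]
  have h0 : 0 ≤ (p : ℝ) ^ α / p := by positivity
  have h1 : Summable fun k : ℕ => ((p : ℝ) ^ α - 1) / ((p : ℝ) - 1) * ((p : ℝ) ^ α / p) ^ k :=
    (summable_geometric_of_lt_one h0 (lt_of_le_of_lt (x_le hα2 hp) (by norm_num))).mul_left _
  refine h1.congr fun k => ?_
  rw [Real.norm_of_nonneg (ga_nonneg hα _), ga_pow α hp]

lemma ga_tsum {α : ℝ} (hα : 0 ≤ α) (hα2 : α ≤ 1 / 2) {p : ℕ} (hp : p.Prime)
    (hpα : α * Real.log p ≤ 1) :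
    ∑' n : ℕ, ga α (p ^ n) ≤ Real.exp (24 * (α * (Real.log p / p))) := by
  have hp2 : (2 : ℝ) ≤ p := by exact_mod_cast hp.two_le
  have hp0 : (0 : ℝ) < p := by linarith
  have hsum := (ga_summable hα hα2 hp).of_norm
  rw [hsum.tsum_eq_zero_add, pow_zero, ga_one]
  have e1 : ∑' n : ℕ, ga α (p ^ (n + 1)) =
      ((p : ℝ) ^ α - 1) / ((p : ℝ) - 1) * (1 - (p : ℝ) ^ α / p)⁻¹ := by
    rw [← tsum_geometric_of_lt_one (by positivity) (lt_of_le_of_lt (x_le hα2 hp) (by norm_num)),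
      ← tsum_mul_left]
    exact tsum_congr fun k => ga_pow α hp k
  rw [e1]
  have hx := x_le hα2 hp
  have h1 : (1 - (p : ℝ) ^ α / p)⁻¹ ≤ 4 := by
    rw [inv_le_comm₀ (by linarith) (by norm_num)]
    linarith
  set t := α * Real.log p with ht
  have ht0 : 0 ≤ t := mul_nonneg hα (Real.log_nonneg (by linarith))
  have hpt : (p : ℝ) ^ α = Real.exp t := by
    rw [Real.rpow_def_of_pos hp0, ht, mul_comm]
  have h2 : Real.exp t - 1 ≤ 3 * t := by
    have h3 : 1 - t ≤ Real.exp (-t) := Real.one_sub_le_exp_neg t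
    have h4 : Real.exp t * Real.exp (-t) = 1 := by rw [← Real.exp_add]; simp
    have h5 : Real.exp t ≤ 3 := by
      have := Real.exp_le_exp.mpr hpα
      have := Real.exp_one_lt_d9
      linarith
    have h6 : 0 < Real.exp t := Real.exp_pos t
    nlinarith
  have h3 : ((p : ℝ) ^ α - 1) / ((p : ℝ) - 1) ≤ 6 * (t / p) := by
    rw [hpt, div_le_iff₀ (by linarith)]
    have h4 : (p : ℝ) / 2 ≤ p - 1 := by linarith
    have h5 : 6 * (t / p) * ((p : ℝ) / 2) = 3 * t := by field_simp; ring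
    have h6 : 0 ≤ 6 * (t / p) := by positivity
    nlinarith
  have h3' : 0 ≤ ((p : ℝ) ^ α - 1) / ((p : ℝ) - 1) := by
    apply div_nonneg
    · rw [hpt]; linarith [Real.one_le_exp ht0]
    · linarith
  have h4 : ((p : ℝ) ^ α - 1) / ((p : ℝ) - 1) * (1 - (p : ℝ) ^ α / p)⁻¹ ≤ 6 * (t / p) * 4 :=
    mul_le_mul h3 h1 (by rw [inv_nonneg]; linarith) (by positivity)
  have h5 : 24 * (α * (Real.log p / p)) = 6 * (t / p) * 4 := by rw [ht]; ring
  rw [h5]
  have := Real.add_one_le_exp (6 * (t / p) * 4)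
  linarith

/-- **Lemma A** -/
theorem lemA : ∃ K0 : ℝ, 0 < K0 ∧ ∀ y : ℝ, 0 < y → 2 ≤ Real.log y → ∃ h : ℕ → ℝ,
    (∀ n, 0 ≤ h n) ∧
    (∀ m : ℕ, m ≠ 0 → ∑ d ∈ m.divisors, h d = (m : ℝ) ^ (1 / Real.log y)) ∧
    ∀ S : Finset ℕ, (∀ d ∈ S, d ≠ 0 ∧ ∀ l : ℕ, l.Prime → l ∣ d → (l : ℝ) < y) →
      ∑ d ∈ S, h d / (Nat.totient d : ℝ) ≤ K0 := by
  classical
  obtain ⟨C, hC⟩ := Pool.Agent.Helper256.KM.mertens_log
  refine ⟨Real.exp (24 * (2 + |C|)), Real.exp_pos _, fun y hy0 hy => ?_⟩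
  set α := 1 / Real.log y with hα
  have hly : 0 < Real.log y := by linarith
  have hα0 : 0 ≤ α := by positivity
  have hα2 : α ≤ 1 / 2 := by
    rw [hα]
    exact one_div_le_one_div_of_le (by norm_num) hy
  have hαy : α * Real.log y = 1 := by rw [hα]; field_simp
  have hy3 : 3 ≤ y := by
    have h1 := Real.add_one_le_exp (Real.log y)
    rw [Real.exp_log hy0] at h1
    linarith
  refine ⟨ha α, ha_nonneg hα0, fun m hm => ha_sum α hm, fun S hS => ?_⟩
  set Y := ⌈y⌉₊ with hY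
  have hmain := (EulerProduct.summable_and_hasSum_smoothNumbers_prod_primesBelow_tsum
    (f := ga α) (ga_one α) (fun h => ga_mul α h) (fun hp => ga_summable hα0 hα2 hp) Y).2
  have hSm : ∀ d ∈ S, d ∈ Y.smoothNumbers := by
    intro d hd
    rw [Nat.mem_smoothNumbers']
    intro l hl hld
    exact Nat.lt_ceil.mpr ((hS d hd).2 l hl hld)
  have h1 : ∑ d ∈ S, ha α d / (Nat.totient d : ℝ) ≤
      ∏ p ∈ Y.primesBelow, ∑' n : ℕ, ga α (p ^ n) := by
    have h2 := sum_le_hasSum (S.subtype (· ∈ Y.smoothNumbers)) (fun i _ => ga_nonneg hα0 i) hmain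
    rwa [Finset.sum_subtype_of_mem (fun d => ga α d) hSm] at h2
  refine h1.trans ?_
  have hYy : (Y : ℝ) ≤ y + 1 := (Nat.ceil_lt_add_one hy0.le).le
  have hY1 : 1 ≤ Y := Nat.one_le_iff_ne_zero.mpr (by rw [hY]; exact (Nat.ceil_pos.mpr hy0).ne')
  have hlogY : Real.log Y ≤ 2 * Real.log y := by
    have : Real.log Y ≤ Real.log (y ^ 2) :=
      Real.log_le_log (by exact_mod_cast hY1) (hYy.trans (by nlinarith))
    rwa [Real.log_pow, Nat.cast_ofNat] at this
  have hmem : ∀ p ∈ Y.primesBelow, p.Prime ∧ (p : ℝ) < y := by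
    intro p hp
    rw [Nat.mem_primesBelow] at hp
    exact ⟨hp.2, Nat.lt_ceil.mp hp.1⟩
  calc ∏ p ∈ Y.primesBelow, ∑' n : ℕ, ga α (p ^ n)
      ≤ ∏ p ∈ Y.primesBelow, Real.exp (24 * (α * (Real.log p / p))) := by
        refine Finset.prod_le_prod (fun p _ => tsum_nonneg fun n => ga_nonneg hα0 _) fun p hp => ?_
        obtain ⟨hpp, hpy⟩ := hmem p hp
        refine ga_tsum hα0 hα2 hpp ?_
        rw [← hαy]
        exact mul_le_mul_of_nonneg_left
          (Real.log_le_log (by exact_mod_cast hpp.pos) hpy.le) hα0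
    _ = Real.exp (24 * (α * ∑ p ∈ Y.primesBelow, Real.log p / p)) := by
        rw [← Real.exp_sum, ← Finset.mul_sum, ← Finset.mul_sum]
    _ ≤ Real.exp (24 * (2 + |C|)) := by
        apply Real.exp_le_exp.mpr
        have h3 : ∑ p ∈ Y.primesBelow, Real.log p / p ≤ Real.log Y + C := by
          have h4 := (abs_le.mp (hC Y hY1)).2
          have h5 : ∑ p ∈ Y.primesBelow, Real.log p / p ≤
              ∑ p ∈ (Finset.Icc 1 Y).filter Nat.Prime, Real.log p / p := by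
            refine Finset.sum_le_sum_of_subset_of_nonneg ?_ fun p hp _ => ?_
            · intro p hp
              rw [Nat.mem_primesBelow] at hp
              rw [Finset.mem_filter, Finset.mem_Icc]
              exact ⟨⟨hp.2.one_lt.le, hp.1.le⟩, hp.2⟩
            · have := (Finset.mem_filter.mp hp).2.one_lt.le
              exact div_nonneg (Real.log_nonneg (by exact_mod_cast this)) (Nat.cast_nonneg _)
          linarith
        have h6 : α * ∑ p ∈ Y.primesBelow, Real.log p / p ≤ 2 + |C| := by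
          have h7 : α * ∑ p ∈ Y.primesBelow, Real.log p / p ≤ α * (2 * Real.log y + |C|) :=
            mul_le_mul_of_nonneg_left (by linarith [le_abs_self C]) hα0
          have h8 : α * (2 * Real.log y + |C|) = 2 * (α * Real.log y) + α * |C| := by ring
          rw [h8, hαy] at h7
          have h9 : α * |C| ≤ 1 * |C| := mul_le_mul_of_nonneg_right (by linarith) (abs_nonneg _)
          linarith
        linarith

/-- **Lemma B**: a divisor of medium size of a smooth number. -/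
theorem lemB {m : ℕ} (hm : m ≠ 0) {X y : ℝ} (hX : 1 ≤ X) (hmX : X < m)
    (hs : ∀ l : ℕ, l.Prime → l ∣ m → (l : ℝ) < y) :
    ∃ d : ℕ, d ∣ m ∧ (d : ℝ) ≤ X ∧ X < d * y := by
  classical
  let D : Finset ℕ := m.divisors.filter fun d : ℕ => (d : ℝ) ≤ X
  have hD : D.Nonempty := ⟨1, by
    rw [Finset.mem_filter, Nat.mem_divisors]
    exact ⟨⟨one_dvd _, hm⟩, by simpa using hX⟩⟩
  obtain ⟨d, hd, hmax⟩ := Finset.exists_max_image D (fun d => d) hD
  rw [Finset.mem_filter, Nat.mem_divisors] at hd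
  obtain ⟨⟨hdm, -⟩, hdX⟩ := hd
  refine ⟨d, hdm, hdX, ?_⟩
  obtain ⟨e, he⟩ := hdm
  have hd0 : d ≠ 0 := by rintro rfl; rw [zero_mul] at he; exact hm he
  have he1 : e ≠ 1 := by
    rintro rfl
    rw [mul_one] at he
    rw [he] at hmX
    linarith
  obtain ⟨l, hl, hle⟩ := Nat.exists_prime_and_dvd he1
  have hdl : d * l ∣ m := by rw [he]; exact mul_dvd_mul_left d hle
  have hly : (l : ℝ) < y := hs l hl (dvd_trans (dvd_mul_left l d) hdl)
  have h1 : X < ((d * l : ℕ) : ℝ) := by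
    by_contra hn
    push Not at hn
    have h2 : d * l ∈ D := by
      rw [Finset.mem_filter, Nat.mem_divisors]
      exact ⟨⟨hdl, hm⟩, hn⟩
    have h3 := hmax _ h2
    have h4 := hl.one_lt
    have h5 : 0 < d := Nat.pos_of_ne_zero hd0
    nlinarith
  push_cast at h1
  have h6 : (0 : ℝ) < d := by exact_mod_cast Nat.pos_of_ne_zero hd0
  nlinarith

end Pool.Agent.U261.PL
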