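import Pool.Agent.W23.PL.Defs
import Pool.Agent.U261.PL.SmoA

/-!
Smooth parts of shifted primes (package SMO).
-/

set_option autoImplicit false

namespace Pool.Agent.U261.PL

open Finset Filter
open Pool.Agent.H442R2
open Pool.Agent.H442R2.KF
open Pool.Agent.W23.DC
open Pool.Agent.W23.PL

/-- large `N` -/
theorem ev1 (k : ℕ) (c r : ℝ) (hc : 0 < c) (hr : 0 < r) :
    ∀ᶠ N : ℕ in atTop, Real.log N ^ k ≤ c * (N : ℝ) ^ r := by
  have h1 : (fun x : ℝ => Real.log x ^ (k : ℝ)) =o[atTop] fun x => x ^ r :=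
    isLittleO_log_rpow_rpow_atTop _ hr
  have h2 := (h1.bound hc)
  have h3 := tendsto_natCast_atTop_atTop (R := ℝ) |>.eventually h2
  filter_upwards [h3, eventually_ge_atTop 1] with N hN hN1
  rw [Real.norm_eq_abs, Real.norm_eq_abs, Real.rpow_natCast] at hN
  have h4 : (0 : ℝ) ≤ (N : ℝ) ^ r := by positivity
  rw [abs_of_nonneg h4] at hN
  exact (le_abs_self _).trans hN

theorem ev2 (t : ℝ) : ∀ᶠ N : ℕ in atTop, t ≤ Real.log N :=
  (Real.tendsto_log_atTop.comp tendsto_natCast_atTop_atTop).eventually_ge_atTop t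

open Classical in
theorem SMO (hUBS : St_UBS) (hVLB : St_VLB) : St_SMO := by
  intro B hB ε₁ hε hε1
  obtain ⟨K0, hK0, hA⟩ := lemA
  obtain ⟨C, N₁, hC, hU⟩ := hUBS B hB ε₁ hε hε1
  obtain ⟨c₂, hc₂, hV0⟩ := hVLB
  obtain ⟨N₂, hV⟩ := hV0 B (by omega) ε₁ hε hε1
  refine ⟨C * K0 + 1, by positivity, fun u hu => ?_⟩
  -- all conditions on `N`
  have hev : ∀ᶠ N : ℕ in atTop, N₁ ≤ N ∧ N₂ ≤ N ∧ Real.exp 1 ≤ Real.log N ∧
      Real.log N ^ (B * (u + 1)) ≤ 1 * (N : ℝ) ^ (1 / 20 : ℝ) ∧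
      Real.log N ^ (B + 2) ≤ (c₂ * Real.exp (-(u : ℝ))) * (N : ℝ) ^ (1 : ℝ) := by
    filter_upwards [eventually_ge_atTop N₁, eventually_ge_atTop N₂, ev2 (Real.exp 1),
      ev1 (B * (u + 1)) 1 (1 / 20) one_pos (by norm_num),
      ev1 (B + 2) (c₂ * Real.exp (-(u : ℝ))) 1 (by positivity) one_pos] with N h1 h2 h3 h4 h5
    exact ⟨h1, h2, h3, h4, h5⟩
  obtain ⟨N₀, hN₀⟩ := eventually_atTop.mp hev
  refine ⟨N₀, fun N hN a ha0 haN => ?_⟩
  obtain ⟨hN1, hN2, hL, hbig, hsm⟩ := hN₀ N hN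
  rw [one_mul] at hbig
  rw [Real.rpow_one] at hsm
  set L := Real.log N with hLdef
  set y := L ^ B with hy
  have he1 : (2 : ℝ) ≤ Real.exp 1 := by
    have := Real.add_one_le_exp (1 : ℝ); linarith
  have hL2 : 2 ≤ L := he1.trans hL
  have hL0 : 0 < L := by linarith
  have hlogL : 1 ≤ Real.log L := by
    have := Real.log_le_log (Real.exp_pos 1) hL
    rwa [Real.log_exp] at this
  have hy0 : 0 < y := by positivity
  have hy1 : 1 ≤ y := one_le_pow₀ (by linarith)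
  have hlogy : Real.log y = B * Real.log L := by rw [hy, Real.log_pow]
  have hB2 : (2 : ℝ) ≤ B := by exact_mod_cast hB
  have hly2 : 2 ≤ Real.log y := by rw [hlogy]; nlinarith
  have hN0 : (0 : ℝ) < N := by
    by_contra hn
    have h0 : (N : ℝ) = 0 := le_antisymm (not_lt.mp hn) (Nat.cast_nonneg _)
    rw [hLdef, h0, Real.log_zero] at hL0
    exact lt_irrefl _ hL0
  obtain ⟨h, hh0, hhs, hhS⟩ := hA y hy0 hly2
  set X := (N : ℝ) ^ (1 / 20 : ℝ) with hX
  have hyu : y ^ (u + 1) ≤ X := by rw [hy, ← pow_mul]; exact hbig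
  have hX1 : 1 ≤ X := (one_le_pow₀ hy1).trans hyu
  -- the moduli
  let SM : Finset ℕ := (Icc 1 ⌊X⌋₊).filter fun e => (∀ l : ℕ, l.Prime → l ∣ e → (l : ℝ) < y) ∧
    Int.gcd a e = 1
  let Pr : ℕ → Finset ℕ := fun e => (Icc 1 N).filter fun p : ℕ => p.Prime ∧ (e : ℤ) ∣ a - p ∧
      xx (P1 N B ε₁) (p - a) = 1
  set T := (Icc 1 N).filter fun p : ℕ => p.Prime ∧ (p : ℤ) ≠ a ∧ xx (P1 N B ε₁) (p - a) = 1 ∧
      ∃ m : ℕ, m ∣ (a - p).natAbs ∧ (∀ l : ℕ, l.Prime → l ∣ m → (l : ℝ) < Real.log N ^ B) ∧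
      Real.log N ^ (B * u) < m with hT
  let G : Finset ℕ := T.filter fun p : ℕ => ¬ (p : ℝ) < y
  -- a modulus for each element of `G`
  have hG : ∀ p ∈ G, ∃ e : ℕ, e ≠ 0 ∧ e ∈ SM ∧ p ∈ Pr e ∧ y ^ u < e := by
    intro p hp
    obtain ⟨hpT, hpy⟩ := Finset.mem_filter.mp hp
    rw [hT, Finset.mem_filter] at hpT
    obtain ⟨hpN, hpp, hpa, hxx, m, hmd, hms, hmu⟩ := hpT
    have hap : (a - p).natAbs ≠ 0 := by
      rw [Ne, Int.natAbs_eq_zero, sub_eq_zero]
      exact fun h => hpa h.symm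
    have hm0 : m ≠ 0 := by rintro rfl; exact hap (Nat.eq_zero_of_zero_dvd hmd)
    have hmd' : (m : ℤ) ∣ a - p := Int.natCast_dvd.mpr hmd
    -- coprimality
    have hgcd : Int.gcd a m = 1 := by
      by_contra hg
      obtain ⟨l, hl, hlg⟩ := Nat.exists_prime_and_dvd hg
      have hla : (l : ℤ) ∣ a := (Int.natCast_dvd_natCast.mpr hlg).trans (Int.gcd_dvd_left ..)
      have hlm : (l : ℤ) ∣ (m : ℤ) := (Int.natCast_dvd_natCast.mpr hlg).trans (Int.gcd_dvd_right ..)
      have hlp : (l : ℤ) ∣ (p : ℤ) := by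
        have := dvd_sub hla (hlm.trans hmd')
        rwa [sub_sub_cancel] at this
      have hlp' : l = p := (Nat.prime_dvd_prime_iff_eq hl hpp).mp (Int.natCast_dvd_natCast.mp hlp)
      have := hms l hl (Int.natCast_dvd_natCast.mp hlm)
      rw [hlp'] at this
      exact hpy this
    -- the divisor
    obtain ⟨d, hdm, hdX, hdu⟩ : ∃ d : ℕ, d ∣ m ∧ (d : ℝ) ≤ X ∧ y ^ u < d := by
      by_cases hmX : (m : ℝ) ≤ X
      · refine ⟨m, dvd_rfl, hmX, ?_⟩
        rw [hy, ← pow_mul]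
        exact hmu
      · obtain ⟨d, h1, h2, h3⟩ := lemB hm0 hX1 (not_le.mp hmX) hms
        refine ⟨d, h1, h2, ?_⟩
        have h4 : y ^ u * y < d * y := by
          rw [← pow_succ]
          exact lt_of_le_of_lt hyu h3
        exact lt_of_mul_lt_mul_right h4 hy0.le
    have hd0 : d ≠ 0 := by rintro rfl; exact hm0 (Nat.eq_zero_of_zero_dvd hdm)
    refine ⟨d, hd0, ?_, ?_, hdu⟩
    · refine Finset.mem_filter.mpr ⟨Finset.mem_Icc.mpr ⟨Nat.one_le_iff_ne_zero.mpr hd0,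
        Nat.le_floor hdX⟩, fun l hl hld => hms l hl (hld.trans hdm), ?_⟩
      have h1 : Int.gcd a d ∣ Int.gcd a m := by
        rw [← Int.natCast_dvd_natCast]
        exact Int.dvd_coe_gcd (Int.gcd_dvd_left ..)
          ((Int.gcd_dvd_right ..).trans (Int.natCast_dvd_natCast.mpr hdm))
      rw [hgcd] at h1
      exact Nat.dvd_one.mp h1
    · exact Finset.mem_filter.mpr ⟨hpN, hpp, (Int.natCast_dvd_natCast.mpr hdm).trans hmd', hxx⟩
  -- Rankin's trick
  have hRan : ∀ p ∈ G, (1 : ℝ) ≤ Real.exp (-(u : ℝ)) *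
      ∑ e ∈ SM, h e * (if p ∈ Pr e then 1 else 0) := by
    intro p hp
    obtain ⟨e, he0, heS, heP, heu⟩ := hG p hp
    have h1 : Real.exp u ≤ (e : ℝ) ^ (1 / Real.log y) := by
      have h2 : (y ^ u) ^ (1 / Real.log y) ≤ (e : ℝ) ^ (1 / Real.log y) :=
        Real.rpow_le_rpow (by positivity) heu.le (by positivity)
      refine le_trans (le_of_eq ?_) h2
      rw [← Real.rpow_natCast, ← Real.rpow_mul hy0.le, Real.rpow_def_of_pos hy0]
      congr 1
      field_simp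
    have h3 : ∑ d ∈ e.divisors, h d ≤ ∑ e ∈ SM, h e * (if p ∈ Pr e then 1 else 0) := by
      have hsub : e.divisors ⊆ SM := by
        intro d hd
        rw [Nat.mem_divisors] at hd
        obtain ⟨hs1, hs2, hs3⟩ := Finset.mem_filter.mp heS
        have hd0 : d ≠ 0 := by
          rintro rfl; exact he0 (Nat.eq_zero_of_zero_dvd hd.1)
        refine Finset.mem_filter.mpr ⟨Finset.mem_Icc.mpr ⟨Nat.one_le_iff_ne_zero.mpr hd0,
          (Nat.le_of_dvd (Nat.pos_of_ne_zero he0) hd.1).trans (Finset.mem_Icc.mp hs1).2⟩,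
          fun l hl hld => hs2 l hl (hld.trans hd.1), ?_⟩
        have h1 : Int.gcd a d ∣ Int.gcd a e := by
          rw [← Int.natCast_dvd_natCast]
          exact Int.dvd_coe_gcd (Int.gcd_dvd_left ..)
            ((Int.gcd_dvd_right ..).trans (Int.natCast_dvd_natCast.mpr hd.1))
        rw [hs3] at h1
        exact Nat.dvd_one.mp h1
      calc ∑ d ∈ e.divisors, h d = ∑ d ∈ e.divisors, h d * (if p ∈ Pr d then 1 else 0) := by
            refine Finset.sum_congr rfl fun d hd => ?_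
            rw [Nat.mem_divisors] at hd
            obtain ⟨q1, q2, q3, q4⟩ := Finset.mem_filter.mp heP
            have : p ∈ Pr d := Finset.mem_filter.mpr
              ⟨q1, q2, (Int.natCast_dvd_natCast.mpr hd.1).trans q3, q4⟩
            rw [if_pos this, mul_one]
        _ ≤ _ := Finset.sum_le_sum_of_subset_of_nonneg hsub fun d _ _ =>
            mul_nonneg (hh0 d) (by split_ifs <;> norm_num)
    rw [hhs e he0] at h3
    have h4 : Real.exp (-(u : ℝ)) * Real.exp u = 1 := by rw [← Real.exp_add]; simp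
    calc (1 : ℝ) = Real.exp (-(u : ℝ)) * Real.exp u := h4.symm
      _ ≤ _ := mul_le_mul_of_nonneg_left (h1.trans h3) (Real.exp_pos _).le
  -- summation
  have hGc : (G.card : ℝ) ≤ Real.exp (-(u : ℝ)) * ∑ e ∈ SM, h e * ((Pr e).card : ℝ) := by
    calc (G.card : ℝ) = ∑ p ∈ G, (1 : ℝ) := by simp
      _ ≤ ∑ p ∈ G, Real.exp (-(u : ℝ)) * ∑ e ∈ SM, h e * (if p ∈ Pr e then 1 else 0) :=
          Finset.sum_le_sum hRan
      _ = Real.exp (-(u : ℝ)) * ∑ e ∈ SM, h e * ∑ p ∈ G, (if p ∈ Pr e then (1 : ℝ) else 0) := by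
          rw [← Finset.mul_sum, Finset.sum_comm]
          congr 1
          exact Finset.sum_congr rfl fun e _ => (Finset.mul_sum _ _ _).symm
      _ ≤ _ := by
          refine mul_le_mul_of_nonneg_left (Finset.sum_le_sum fun e _ =>
            mul_le_mul_of_nonneg_left ?_ (hh0 e)) (Real.exp_pos _).le
          rw [← Finset.sum_filter, Finset.sum_const, nsmul_eq_mul, mul_one]
          exact_mod_cast Finset.card_le_card fun p hp => (Finset.mem_filter.mp hp).2
  set VV' := VV (P1 N B ε₁) with hVV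
  have hVlow := (hV N hN2).1
  have hV1 : c₂ * (1 / L) ≤ VV' := by
    refine le_trans (mul_le_mul_of_nonneg_left ?_ hc₂.le) hVlow
    rw [div_le_div_iff₀ hL0 (by positivity)]
    have h1 : ε₁ ≤ B * Real.log L := by nlinarith
    rw [one_mul]
    exact mul_le_mul_of_nonneg_right h1 hL0.le
  have hVpos : 0 < VV' := lt_of_lt_of_le (by positivity) hV1
  have hSMsum : ∑ e ∈ SM, h e * ((Pr e).card : ℝ) ≤ C * K0 * VV' * (N / L) := by
    have h1 : ∀ e ∈ SM, h e * ((Pr e).card : ℝ) ≤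
        C * VV' * (N / L) * (h e / (Nat.totient e : ℝ)) := by
      intro e he
      obtain ⟨hs1, hs2, hs3⟩ := Finset.mem_filter.mp he
      have h2 := hU N hN1 a ha0 haN e (Finset.mem_Icc.mp hs1).1
        (by
          have := Nat.cast_le (α := ℝ).mpr (Finset.mem_Icc.mp hs1).2
          exact this.trans (Nat.floor_le (by positivity))) hs3
      rw [← hLdef, ← hVV] at h2
      have h3 := mul_le_mul_of_nonneg_left h2 (hh0 e)
      refine h3.trans (le_of_eq ?_)
      have h4 : (0 : ℝ) < (Nat.totient e : ℝ) := by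
        exact_mod_cast Nat.totient_pos.mpr (Finset.mem_Icc.mp hs1).1
      field_simp
    calc ∑ e ∈ SM, h e * ((Pr e).card : ℝ)
        ≤ ∑ e ∈ SM, C * VV' * (N / L) * (h e / (Nat.totient e : ℝ)) := Finset.sum_le_sum h1
      _ = C * VV' * (N / L) * ∑ e ∈ SM, h e / (Nat.totient e : ℝ) := by rw [Finset.mul_sum]
      _ ≤ C * VV' * (N / L) * K0 := by
          refine mul_le_mul_of_nonneg_left (hhS SM fun d hd => ?_) (by positivity)
          obtain ⟨hs1, hs2, hs3⟩ := Finset.mem_filter.mp hd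
          exact ⟨Nat.one_le_iff_ne_zero.mp (Finset.mem_Icc.mp hs1).1, hs2⟩
      _ = _ := by ring
  -- the small primes
  have hsmall : ((T.filter fun p : ℕ => (p : ℝ) < y).card : ℝ) ≤ y := by
    have h1 : (T.filter fun p : ℕ => (p : ℝ) < y) ⊆ Icc 1 ⌊y⌋₊ := by
      intro p hp
      obtain ⟨hp1, hp2⟩ := Finset.mem_filter.mp hp
      rw [hT, Finset.mem_filter] at hp1
      exact Finset.mem_Icc.mpr ⟨(Finset.mem_Icc.mp hp1.1).1, Nat.le_floor hp2.le⟩
    have h2 := Finset.card_le_card h1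
    rw [Nat.card_Icc, Nat.add_sub_cancel] at h2
    exact (Nat.cast_le.mpr h2).trans (Nat.floor_le hy0.le)
  have hcard : (T.card : ℝ) = ((T.filter fun p : ℕ => (p : ℝ) < y).card : ℝ) + (G.card : ℝ) := by
    rw [← Nat.cast_add, Finset.card_filter_add_card_filter_not]
  have hyle : y ≤ Real.exp (-(u : ℝ)) * VV' * (N / L) := by
    have h1 : y * L ^ 2 ≤ c₂ * Real.exp (-(u : ℝ)) * N := by
      rw [hy, ← pow_add]; exact hsm
    have h2 : c₂ * Real.exp (-(u : ℝ)) * N / L ^ 2 ≤ Real.exp (-(u : ℝ)) * VV' * (N / L) := by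
      have h3 : c₂ * Real.exp (-(u : ℝ)) * N / L ^ 2 =
          Real.exp (-(u : ℝ)) * (c₂ * (1 / L)) * (N / L) := by
        field_simp
      rw [h3]
      exact mul_le_mul_of_nonneg_right
        (mul_le_mul_of_nonneg_left hV1 (Real.exp_pos _).le) (by positivity)
    refine le_trans ?_ h2
    rw [le_div_iff₀ (by positivity)]
    exact h1
  have hfin : (G.card : ℝ) ≤ C * K0 * (Real.exp (-(u : ℝ)) * VV' * (N / L)) := by
    refine hGc.trans ((mul_le_mul_of_nonneg_left hSMsum (Real.exp_pos _).le).trans (le_of_eq ?_))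
    ring
  rw [hcard]
  calc ((T.filter fun p : ℕ => (p : ℝ) < y).card : ℝ) + (G.card : ℝ)
      ≤ Real.exp (-(u : ℝ)) * VV' * (N / L) + C * K0 * (Real.exp (-(u : ℝ)) * VV' * (N / L)) :=
        add_le_add (hsmall.trans hyle) hfin
    _ = (C * K0 + 1) * Real.exp (-(u : ℝ)) * VV' * (N / L) := by ring

end Pool.Agent.U261.PL
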